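import Pool.Agent.P.MP_be6357_al.Bridge

namespace Pool.Agent.Results.MP_be6357_al.AssPersistence

open Pool.Agent.P.MP_be6357_al

/-- For a polymatroidal ideal `I`, `i > 0` and `k ≥ i`, every associated prime of `HS_i(I^k)` is an
associated prime of `HS_i(I^{k+1})`. -/
theorem result (K : Type*) [Field K] (n : ℕ) (I : Ideal (MvPolynomial (Fin n) K))
    (hI : IsPolymatroidal I) (i k : ℕ) (hi : 0 < i) (hk : i ≤ k) :
    associatedPrimes (MvPolynomial (Fin n) K) (MvPolynomial (Fin n) K ⧸ HS i (I ^ k)) ⊆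
      associatedPrimes (MvPolynomial (Fin n) K) (MvPolynomial (Fin n) K ⧸ HS i (I ^ (k + 1))) :=
  ass_HS_subset hI hi hk

end Pool.Agent.Results.MP_be6357_al.AssPersistence
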